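import Pool.Agent.H7.UB.Upper
import Pool.Agent.H54.Pol.Asym2

/-!
# MP_18b2cf_co: the exponent constant

For every `d ≥ 4` the number `N_d(v)` of combinatorial types of convex `d`-polytopes with `v`
vertices satisfies `log N_d(v) / (v log v) → (d + 1) (⌊d/2⌋ - 1)` as `v → ∞`. In particular, the
lower and the upper limit coincide.
-/

set_option autoImplicit false

namespace Pool.Agent.Results.MP_18b2cf_co.ExponentConstant

open Filter Topology Pool.Agent.H4.Pol

theorem result (d : ℕ) (hd : 4 ≤ d) :
    Tendsto (fun v : ℕ => Real.log (numTypes d v) / (v * Real.log v)) atTop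
      (𝓝 (((d : ℝ) + 1) * (((d / 2 : ℕ) : ℝ) - 1))) :=
  Pool.Agent.H7.UB.tendsto_of_bounds d hd (fun c hc => Pool.Agent.H4.Pol2.lower d hd c hc)

end Pool.Agent.Results.MP_18b2cf_co.ExponentConstant
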